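import Pool.Agent.Run7.h767.CX.Packing

/-!
# Packings of translates of convex bodies in a polygon enforce no curved relations

The known proofs that packing problems are hard for the existential theory of the reals encode a real
variable by the position of a piece and enforce a curved relation between such variables, for instance
`x y = 1` or `y = x ^ 2`, in all packings. We show that unit disks in a polygon cannot do this: let a
polyhedral condition on the centres be added (for instance: the centre of the disk number `i` is in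
the convex region `W_i`); if two affine functions `ξ`, `η` of the centres are such that the value of
`ξ` determines the value of `η` for all these packings, then the pairs of values form a finite union of
segments; if `ξ` has several components, this holds over every line. If the set of the values of any
affine map (to any `ℝ ^ d`) contains no segment, for instance if it is contained in a hyperbola, a
parabola or a sphere, then it is finite.

This holds for translates of arbitrary convex bodies and polyhedral containers (with or without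
holes) in every dimension.

Proof. The set `F` of all packings is near each of its points the complement of a finite union of open
convex sets of tuples of translations (`CoConvex`): `c i + K i` misses an edge `e` of the container if
and only if `c i` is not in `e - int (K i)`, and it does not overlap `c j + K j` if and only if
`c i - c j` is not in `int (K j) - int (K i)`. If `z ∈ F` and `w ∈ F` is near `z`, then the points on the
ray from `z` through `w` behind `w` are also in `F` (near `z`), since an open convex set whose closure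
contains `z` and which contains such a point contains `w`. So `w` can be moved along a segment in `F` to
the boundary of a fixed small cube with the centre `z`, whose facets are treated by induction on the
dimension.
-/

set_option autoImplicit false

namespace Pool.Agent.Results.MP_b3ca4b_lc.NoCurvedRelations

open Run7.h767.CX (Packings CoConvex)

section proof

variable {X : Type*} [NormedAddCommGroup X] [NormedSpace ℝ X] [FiniteDimensional ℝ X]

theorem coConvex_zero (g : X →ᵃ[ℝ] ℝ) : CoConvex {c : X | g c = 0} := by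
  have h := Run7.h767.CX.coConvex_halfspaces (k := 2) ![g, -g]
  have h1 : {c : X | ∀ j, (![g, -g] : Fin 2 → (X →ᵃ[ℝ] ℝ)) j c ≤ 0} = {c : X | g c = 0} := by
    ext c
    simp only [Set.mem_ofPred_eq, Fin.forall_fin_two, Matrix.cons_val_zero, Matrix.cons_val_one,
      AffineMap.coe_neg, Pi.neg_apply]
    constructor
    · rintro ⟨h1, h2⟩; linarith
    · intro h; constructor <;> linarith
  rwa [h1] at h

/-- the part over a line -/
theorem over_line {F : Set X} (hcomp : IsCompact F) (hcc : CoConvex F) {e d : ℕ}
    (ξ : X →ᵃ[ℝ] (Fin e → ℝ)) (η : X →ᵃ[ℝ] (Fin d → ℝ))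
    (hξη : ∀ c ∈ F, ∀ c' ∈ F, ξ c = ξ c' → η c = η c') (p v : Fin e → ℝ) :
    ∃ T : Set (((Fin e → ℝ) × (Fin d → ℝ)) × ((Fin e → ℝ) × (Fin d → ℝ))), T.Finite ∧
      (fun c => (ξ c, η c)) '' {c | c ∈ F ∧ ∃ t : ℝ, ξ c = p + t • v} =
        ⋃ t ∈ T, segment ℝ t.1 t.2 := by
  by_cases hv : v = 0
  · subst hv
    have hsub : ((fun c => (ξ c, η c)) '' {c | c ∈ F ∧ ∃ t : ℝ, ξ c = p + t • (0 : Fin e → ℝ)}).Subsingleton := by
      rintro _ ⟨c, ⟨hc, t, ht⟩, rfl⟩ _ ⟨c', ⟨hc', t', ht'⟩, rfl⟩
      have h1 : ξ c = ξ c' := by rw [ht, ht', smul_zero, smul_zero]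
      exact Prod.ext h1 (hξη c hc c' hc' h1)
    refine ⟨(fun x => (x, x)) '' ((fun c => (ξ c, η c)) '' {c | c ∈ F ∧ ∃ t : ℝ,
      ξ c = p + t • (0 : Fin e → ℝ)}), hsub.finite.image _, ?_⟩
    ext x
    simp only [Set.mem_iUnion, exists_prop]
    constructor
    · intro hx
      exact ⟨(x, x), ⟨x, hx, rfl⟩, by simp [segment_same]⟩
    · rintro ⟨_, ⟨y, hy, rfl⟩, hxy⟩
      rw [segment_same, Set.mem_singleton_iff] at hxy
      rwa [hxy]
  · obtain ⟨i, hi⟩ := Function.ne_iff.1 hv
    rw [Pi.zero_apply] at hi
    set g : Fin e → (X →ᵃ[ℝ] ℝ) := fun j =>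
      (v i • ((LinearMap.proj j : (Fin e → ℝ) →ₗ[ℝ] ℝ).toAffineMap.comp ξ) -
        v j • ((LinearMap.proj i : (Fin e → ℝ) →ₗ[ℝ] ℝ).toAffineMap.comp ξ)) +
        AffineMap.const ℝ X (v j * p i - v i * p j) with hg
    have hgv : ∀ j c, g j c = v i * (ξ c j - p j) - v j * (ξ c i - p i) := by
      intro j c
      simp only [hg, AffineMap.coe_add, AffineMap.coe_sub, AffineMap.coe_smul, Pi.add_apply,
        Pi.sub_apply, Pi.smul_apply, AffineMap.coe_comp, Function.comp_apply,
        LinearMap.coe_toAffineMap, LinearMap.proj_apply, AffineMap.const_apply, smul_eq_mul]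
      ring
    have hset : {c | c ∈ F ∧ ∃ t : ℝ, ξ c = p + t • v} = F ∩ ⋂ j, {c | g j c = 0} := by
      ext c
      simp only [Set.mem_ofPred_eq, Set.mem_inter_iff, Set.mem_iInter, hgv]
      refine and_congr Iff.rfl ⟨?_, ?_⟩
      · rintro ⟨t, ht⟩ j
        rw [ht]
        simp only [Pi.add_apply, Pi.smul_apply, smul_eq_mul]
        ring
      · intro h
        refine ⟨(ξ c i - p i) / v i, ?_⟩
        ext j
        have := h j
        simp only [Pi.add_apply, Pi.smul_apply, smul_eq_mul]
        field_simp
        linarith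
    have hcc' : CoConvex {c | c ∈ F ∧ ∃ t : ℝ, ξ c = p + t • v} := by
      rw [hset]
      exact hcc.inter (CoConvex.iInter fun j => coConvex_zero (g j))
    have hcomp' : IsCompact {c | c ∈ F ∧ ∃ t : ℝ, ξ c = p + t • v} := by
      rw [hset]
      exact hcomp.inter_right (isClosed_iInter fun j =>
        isClosed_eq (AffineMap.continuous_of_finiteDimensional (g j)) continuous_const)
    have h1 := Run7.h767.CX.affine_segments (ξ.prod η)
      ((LinearMap.proj i : (Fin e → ℝ) →ₗ[ℝ] ℝ).comp (LinearMap.fst ℝ (Fin e → ℝ) (Fin d → ℝ)))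
      hcomp' hcc' (by
      rintro _ ⟨c, ⟨hc, t, ht⟩, rfl⟩ _ ⟨c', ⟨hc', t', ht'⟩, rfl⟩ hcc'
      have h2 : ξ c i = ξ c' i := hcc'
      have h3 : t = t' := by
        rw [ht, ht'] at h2
        simp only [Pi.add_apply, Pi.smul_apply, smul_eq_mul] at h2
        exact mul_right_cancel₀ hi (by linarith)
      have h4 : ξ c = ξ c' := by rw [ht, ht', h3]
      exact Prod.ext h4 (hξη c hc c' hc' h4))
    exact h1

end proof

/-- tuples of `m` vectors of `ℝ ^ n` -/
def Config (m n : ℕ) : Type := Fin m → EuclideanSpace ℝ (Fin n)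

/-- affine maps from the tuples of `m` vectors of `ℝ ^ n` to `ℝ ^ d` -/
def AffineTo (m n d : ℕ) : Type := (Fin m → EuclideanSpace ℝ (Fin n)) →ᵃ[ℝ] (Fin d → ℝ)

/-- the value of the affine map `L` at `c` -/
noncomputable def AffineTo.val {m n d : ℕ} (L : AffineTo m n d) (c : Config m n) : Fin d → ℝ :=
  DFunLike.coe (F := (Fin m → EuclideanSpace ℝ (Fin n)) →ᵃ[ℝ] (Fin d → ℝ)) L c

/-- the packings of translates of the pieces `K i` in `C` -/
def packings (m n : ℕ) (C : Set (EuclideanSpace ℝ (Fin n)))
    (K : Fin m → Set (EuclideanSpace ℝ (Fin n))) : Set (Config m n) := Packings C K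

/-- `C` is compact and its boundary is a finite union of convex sets (the edges, if `C` is a polygon) -/
def PolyhedralContainer (n : ℕ) (C : Set (EuclideanSpace ℝ (Fin n))) : Prop :=
  IsCompact C ∧ ∃ B : Set (Set (EuclideanSpace ℝ (Fin n))), B.Finite ∧ (∀ e ∈ B, Convex ℝ e) ∧
    frontier C = ⋃₀ B

/-- `K` is convex and has an interior point -/
def Body (n : ℕ) (K : Set (EuclideanSpace ℝ (Fin n))) : Prop :=
  Convex ℝ K ∧ (interior K).Nonempty

/-- the set of the tuples of vectors on which the affine functions in the finite set `H` are at most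
zero -/
def Polyhedron (m n : ℕ) (H : Finset (AffineTo m n 1)) : Set (Config m n) :=
  {c | ∀ h ∈ H, h.val c 0 ≤ 0}

/-- if the image of `F` under an affine map to `ℝ ^ d` contains no segment, then it is finite -/
def FiniteIfCurved (m n : ℕ) (F : Set (Config m n)) : Prop :=
  ∀ (d : ℕ) (L : AffineTo m n d),
    (∀ p q : Fin d → ℝ, p ≠ q → ¬ segment ℝ p q ⊆ L.val '' F) → (L.val '' F).Finite

/-- a subset of `ℝ ^ e × ℝ ^ d` which is a finite union of segments -/
def SegmentUnion (e d : ℕ) (R : Set ((Fin e → ℝ) × (Fin d → ℝ))) : Prop :=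
  ∃ T : Set (((Fin e → ℝ) × (Fin d → ℝ)) × ((Fin e → ℝ) × (Fin d → ℝ))), T.Finite ∧
    R = ⋃ t ∈ T, segment ℝ t.1 t.2

/-- if `ξ` and `η` are affine maps to `ℝ ^ e` and `ℝ ^ d` and `ξ` determines `η` on `F`, then the set of
all `(ξ c, η c)`, `c ∈ F`, is a finite union of segments over every line `{p + t v}` of `ℝ ^ e` -/
def PiecewiseAffine (m n : ℕ) (F : Set (Config m n)) : Prop :=
  ∀ (e d : ℕ) (ξ : AffineTo m n e) (η : AffineTo m n d),
    (∀ c ∈ F, ∀ c' ∈ F, ξ.val c = ξ.val c' → η.val c = η.val c') → ∀ p v : Fin e → ℝ,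
    SegmentUnion e d ((fun c => (ξ.val c, η.val c)) '' {c | c ∈ F ∧ ∃ t : ℝ, ξ.val c = p + t • v})

/-- Let the boundary of the container `C ⊆ ℝ ^ n`, a compact set, be a finite union of convex sets (the
edges, if `C` is a polygon), let the pieces `K 0, …, K (m - 1)` be convex sets with interior points
(for instance closed unit disks) and let `F` be the set of the packings of translates of the pieces in
`C` which satisfy finitely many affine inequalities.

1. If the image of `F` under an affine map to `ℝ ^ d` contains no segment, then it is finite.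
2. If `ξ` and `η` are affine maps to `ℝ ^ e` and `ℝ ^ d` and `ξ` determines `η` on `F`, then the set of
all `(ξ c, η c)`, `c ∈ F`, is a finite union of segments over every line of `ℝ ^ e`. -/
theorem result (n : ℕ) (C : Set (EuclideanSpace ℝ (Fin n))) (hC : PolyhedralContainer n C) (m : ℕ)
    (K : Fin m → Set (EuclideanSpace ℝ (Fin n))) (hK : ∀ i, Body n (K i))
    (H : Finset (AffineTo m n 1)) :
    FiniteIfCurved m n (packings m n C K ∩ Polyhedron m n H) ∧
    PiecewiseAffine m n (packings m n C K ∩ Polyhedron m n H) := by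
  obtain ⟨hC, B, hB, hBc, hfr⟩ := hC
  have hP1 : Polyhedron m n H = ⋂ h : H, {c | AffineTo.val (h : AffineTo m n 1) c 0 ≤ 0} := by
    ext c
    simp [Polyhedron]
  have key : ∀ h : AffineTo m n 1, ∃ g : (Fin m → EuclideanSpace ℝ (Fin n)) →ᵃ[ℝ] ℝ,
      ∀ c, g c = h.val c 0 := fun h =>
    ⟨(LinearMap.proj 0 : (Fin 1 → ℝ) →ₗ[ℝ] ℝ).toAffineMap.comp
      (h : (Fin m → EuclideanSpace ℝ (Fin n)) →ᵃ[ℝ] (Fin 1 → ℝ)), fun c => rfl⟩
  choose g hg using key
  have hP2 : Polyhedron m n H = ⋂ h : H, {c : Fin m → EuclideanSpace ℝ (Fin n) |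
      g (h : AffineTo m n 1) c ≤ 0} := by
    rw [hP1]
    simp only [hg]
    rfl
  have hcc : CoConvex (E := Fin m → EuclideanSpace ℝ (Fin n))
      (Packings C K ∩ Polyhedron m n H) := by
    refine (Run7.h767.CX.coConvex_packings hC.isClosed hB hBc hfr (fun i => (hK i).1)
      fun i => (hK i).2).inter ?_
    rw [hP2]
    refine CoConvex.iInter fun h => ?_
    have h1 := Run7.h767.CX.coConvex_halfspaces (k := 1) (fun _ => g (h : AffineTo m n 1))
    simpa using h1
  have hcomp : IsCompact (X := Fin m → EuclideanSpace ℝ (Fin n))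
      (Packings C K ∩ Polyhedron m n H) := by
    rw [hP2]
    refine (Run7.h767.CX.isCompact_packings hC fun i => (hK i).2).inter_right
      (isClosed_iInter fun h => ?_)
    exact isClosed_Iic.preimage (AffineMap.continuous_of_finiteDimensional (g (h : AffineTo m n 1)))
  refine ⟨fun d L hL => ?_, fun e d ξ η hξη p v => over_line hcomp hcc ξ η hξη p v⟩
  refine Run7.h767.CX.finite_values (X := Fin m → EuclideanSpace ℝ (Fin n)) L.val hcomp hcc
    fun x y hxy => ?_
  by_contra hne
  refine hL (L.val x) (L.val y) hne ?_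
  have h2 := image_segment (𝕜 := ℝ) (E := Fin m → EuclideanSpace ℝ (Fin n))
    (L : (Fin m → EuclideanSpace ℝ (Fin n)) →ᵃ[ℝ] (Fin d → ℝ)) x y
  change segment ℝ (DFunLike.coe (F := (Fin m → EuclideanSpace ℝ (Fin n)) →ᵃ[ℝ] (Fin d → ℝ)) L x)
    (DFunLike.coe (F := (Fin m → EuclideanSpace ℝ (Fin n)) →ᵃ[ℝ] (Fin d → ℝ)) L y) ⊆ _
  rw [← h2]
  exact Set.image_mono hxy

end Pool.Agent.Results.MP_b3ca4b_lc.NoCurvedRelations
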